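import Pool.Agent.H735Z.Main

set_option autoImplicit false

/-- Wan's linear ramification bound for the zeta functions of a `ℤ_p`-tower of curves: with
`P n` the numerator of the zeta function of the `n`-th layer, the ramification index over `ℚ_p`
of the field generated by its reciprocal roots is at least `c p ^ n` for large `n`. -/
theorem Pool.Agent.Results.MP_51ecca_nt.Full.result (p : ℕ) [Fact p.Prime] (k K Ω : Type)
    [Field k] [Finite k] [CharP k p] [Field K] [Field Ω] [Algebra k K] [Algebra K Ω] [Algebra k Ω]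
    [IsScalarTower k K Ω] (F : ℕ → IntermediateField K Ω) (hF : H735Z.IsZpTower p k F)
    (hS : (H735Z.ramLocus k F).Finite) :
    ∃ P : ℕ → Polynomial ℤ,
      (∀ n, (((P n).map (Int.castRingHom ℚ) : Polynomial ℚ) : PowerSeries ℚ) =
        (1 - PowerSeries.X) * (1 - PowerSeries.C (Nat.card k : ℚ) * PowerSeries.X) *
          H735Z.zeta k (F n)) ∧
      ∃ c : ℝ, 0 < c ∧ ∃ N : ℕ, ∀ n, N ≤ n → c * (p : ℝ) ^ n ≤
        (H735Z.ramIndex (H735Z.rootField ℚ_[p] ((P n).map (Int.castRingHom ℂ_[p]))) : ℝ) := by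
  obtain ⟨P, hP, m, N, hm, h⟩ := hF.pmain hS
  obtain ⟨c, hc, N', h'⟩ := H735Z.linear_of_bound (Fact.out : p.Prime).one_lt hm
    (fun n => H735Z.ramIndex (H735Z.rootField ℚ_[p] ((P n).map (Int.castRingHom ℂ_[p]))))
    fun n hn => (h n hn).1
  refine ⟨P, hP, c, hc, N', fun n hn => (le_div_iff₀ ?_).1 (h' n hn)⟩
  exact pow_pos (by exact_mod_cast (Fact.out : p.Prime).pos) n
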